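import Pool.Agent.helper30.DL.EIG

/-!
# Project dl (MP_4caea3_gt), module EIB: the operator TB on the sphere
-/

namespace Pool.Agent.DL

open Matrix Complex MeasureTheory Set Filter Topology
open scoped ComplexOrder Manifold ContDiff ComplexConjugate

noncomputable section

/-- the hypotheses on a density -/
structure EIB_H (φ : ℂ → ℂ) (C : ℝ) : Prop where
  m : AEStronglyMeasurable φ (volume.restrict Dk)
  b : ∀ᵐ ξ ∂(volume.restrict Dk), ‖φ ξ‖ ≤ C * (mt ξ)⁻¹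

theorem EIB_bdd {S : Set ℂ} (hS : MeasurableSet S) {g : ℂ → ℂ} (hg : IntegrableOn g S) (m : ℂ → ℂ)
    (hm : Measurable m) (B : ℝ) (hB : ∀ ξ ∈ S, ‖m ξ‖ ≤ B) : IntegrableOn (fun ξ => m ξ * g ξ) S := by
  refine Integrable.mono' (hg.norm.const_mul B) (hm.aestronglyMeasurable.mul hg.aestronglyMeasurable) ?_
  filter_upwards [ae_restrict_mem hS] with ξ hξ
  rw [norm_mul]
  exact mul_le_mul_of_nonneg_right (hB ξ hξ) (norm_nonneg _)

theorem EIB_A (hD : EKD_stmt) (φ : ℂ → ℂ) (C : ℝ) (hφ : EIB_H φ C) : IntegrableOn φ Dk ∧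
    ∀ z : ℂ, IntegrableOn (fun ξ => φ ξ / (z - ξ)) Dk := by
  obtain ⟨M, hM, -, h1, ⟨-, h2⟩, -⟩ := hD 2 (by norm_num)
  have hsub : Dk ⊆ Metric.ball (0 : ℂ) 2 := Metric.closedBall_subset_ball (by norm_num)
  refine ⟨?_, fun z => ?_⟩
  · have h3 : IntegrableOn (fun ξ : ℂ => C * (mt ξ)⁻¹) Dk := (h2.mono_set hsub).const_mul C
    exact Integrable.mono' h3 hφ.m hφ.b
  · have h3 := (h1 z).1
    have h5 : IntegrableOn (fun ξ : ℂ => C * ((mt ξ)⁻¹ * ‖z - ξ‖⁻¹)) Dk :=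
      (h3.mono_set hsub).const_mul C
    have hm2 : AEStronglyMeasurable (fun ξ => φ ξ / (z - ξ)) (volume.restrict Dk) := by
      simp only [div_eq_mul_inv]
      apply hφ.m.mul
      apply Measurable.aestronglyMeasurable
      fun_prop
    refine Integrable.mono' h5 hm2 ?_
    filter_upwards [hφ.b] with ξ h7
    rw [norm_div, div_eq_mul_inv, ← mul_assoc]
    exact mul_le_mul_of_nonneg_right h7 (by positivity)

theorem EIB_B (hD : EKD_stmt) (φ : ℂ → ℂ) (C : ℝ) (hφ : EIB_H φ C) (z : ℂ) :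
    IntegrableOn (fun ξ => φ ξ / (1 - z * ξ)) Dk := by
  obtain ⟨h1, h2⟩ := EIB_A hD φ C hφ
  by_cases hz0 : z = 0
  · subst hz0
    simpa using h1
  · have heq : (fun ξ => φ ξ / (1 - z * ξ)) = fun ξ => z⁻¹ * (φ ξ / (z⁻¹ - ξ)) := by
      funext ξ
      have h6 : 1 - z * ξ = z * (z⁻¹ - ξ) := by
        rw [mul_sub, mul_inv_cancel₀ hz0]
      rw [h6, div_eq_mul_inv, div_eq_mul_inv, mul_inv]
      ring
    rw [heq]
    exact (h2 z⁻¹).const_mul _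

/-- continuity on the disc -/
theorem EIB_C (hE : EKE_stmt) (φ ψ : ℂ → ℂ) (C : ℝ) (hC : 0 ≤ C) (hφ : EIB_H φ C) (hψ : EIB_H ψ C) :
    ContinuousOn (fun z => (∫ ξ in Dk, φ ξ / (z - ξ)) + z ^ 3 * ∫ ξ in Dk, ψ ξ / (1 - z * ξ)) Dk := by
  have hq : ∀ χ : ℂ → ℂ, EIB_H χ C →
      AEStronglyMeasurable (fun ξ => χ ξ * ((mt ξ : ℝ) : ℂ)) (volume.restrict Dk) ∧
      ∀ᵐ ξ ∂(volume.restrict Dk), ‖χ ξ * ((mt ξ : ℝ) : ℂ)‖ ≤ C := by
    intro χ hχ
    constructor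
    · apply hχ.m.mul
      exact (Complex.continuous_ofReal.comp EIG_mtc).aestronglyMeasurable
    · filter_upwards [hχ.b, EIG_ae0 Dk] with ξ h1 h2
      have h3 := EIG_mtpos ξ h2
      rw [norm_mul, Complex.norm_real, Real.norm_of_nonneg h3.le]
      calc ‖χ ξ‖ * mt ξ ≤ (C * (mt ξ)⁻¹) * mt ξ := by gcongr
        _ = C := by field_simp
  have hW : ∀ ξ : ℂ, ξ ^ 8 ≠ 1 → (((mt ξ : ℝ) : ℂ)⁻¹) * ((mt ξ : ℝ) : ℂ) = 1 := by
    intro ξ h2
    exact inv_mul_cancel₀ (Complex.ofReal_ne_zero.2 (EIG_mtpos ξ h2).ne')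
  have c1 := EIG_K _ hE.1 _ C hC (hq φ hφ).1 (hq φ hφ).2
  have c2 := EIG_K _ hE.2 _ C hC (hq ψ hψ).1 (hq ψ hψ).2
  refine (c1.add c2).congr ?_
  intro z hz
  have e1 : ∫ ξ in Dk, ((((mt ξ : ℝ) : ℂ)⁻¹) / (z - ξ)) * (φ ξ * ((mt ξ : ℝ) : ℂ)) =
      ∫ ξ in Dk, φ ξ / (z - ξ) := by
    apply integral_congr_ae
    filter_upwards [EIG_ae0 Dk] with ξ h2
    have h3 := hW ξ h2
    calc ((((mt ξ : ℝ) : ℂ)⁻¹) / (z - ξ)) * (φ ξ * ((mt ξ : ℝ) : ℂ)) =
        (φ ξ / (z - ξ)) * ((((mt ξ : ℝ) : ℂ)⁻¹) * ((mt ξ : ℝ) : ℂ)) := by ring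
      _ = _ := by rw [h3, mul_one]
  have e2 : ∫ ξ in Dk, ((((mt ξ : ℝ) : ℂ)⁻¹) * (z ^ 3 / (1 - z * ξ))) * (ψ ξ * ((mt ξ : ℝ) : ℂ)) =
      z ^ 3 * ∫ ξ in Dk, ψ ξ / (1 - z * ξ) := by
    rw [← integral_const_mul]
    apply integral_congr_ae
    filter_upwards [EIG_ae0 Dk] with ξ h2
    have h3 := hW ξ h2
    calc ((((mt ξ : ℝ) : ℂ)⁻¹) * (z ^ 3 / (1 - z * ξ))) * (ψ ξ * ((mt ξ : ℝ) : ℂ)) =
        (z ^ 3 * (ψ ξ / (1 - z * ξ))) * ((((mt ξ : ℝ) : ℂ)⁻¹) * ((mt ξ : ℝ) : ℂ)) := by ring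
      _ = _ := by rw [h3, mul_one]
  simp only [Pi.add_apply]
  rw [e1, e2]

theorem EIB_gluePq (P : Fin 3 → ℂ) (j : Bool) (z : ℂ) (hz : z ≠ 0) :
    Pq P j z = z ^ 2 * Pq P (!j) z⁻¹ := by
  unfold Pq
  cases j
  · simp only [Bool.not_false, cond_true, cond_false]
    field_simp
    ring
  · simp only [Bool.not_true, cond_true, cond_false]
    field_simp
    ring

theorem EIB_glueTB (β : Bool → ℂ → ℂ) (j : Bool) (z : ℂ) (hz : z ≠ 0) :
    TB β j z = z ^ 2 * TB β (!j) z⁻¹ := by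
  unfold TB
  have e1 : ∫ ξ in Dk, β (!j) ξ / (z⁻¹ - ξ) = z * ∫ ξ in Dk, β (!j) ξ / (1 - z * ξ) := by
    rw [← integral_const_mul]
    congr 1
    funext ξ
    have h6 : 1 - z * ξ = z * (z⁻¹ - ξ) := by rw [mul_sub, mul_inv_cancel₀ hz]
    rw [h6, div_eq_mul_inv, div_eq_mul_inv, mul_inv]
    field_simp
  have e2 : ∫ ξ in Dk, β j ξ / (1 - z⁻¹ * ξ) = z * ∫ ξ in Dk, β j ξ / (z - ξ) := by
    rw [← integral_const_mul]
    congr 1
    funext ξ
    have h6 : 1 - z⁻¹ * ξ = z⁻¹ * (z - ξ) := by rw [mul_sub, inv_mul_cancel₀ hz]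
    rw [h6, div_eq_mul_inv, div_eq_mul_inv, mul_inv, inv_inv]
    ring
  rw [Bool.not_not, e1, e2]
  field_simp
  ring

theorem EIB_cont (f g : ℂ → ℂ) (hf : ContinuousOn f Dk) (hg : ContinuousOn g Dk)
    (h : ∀ z, z ≠ 0 → f z = z ^ 2 * g z⁻¹) : Continuous f := by
  have hB : ContinuousOn f {z | 1 ≤ ‖z‖} := by
    have h1 : ContinuousOn (fun z : ℂ => z ^ 2 * g z⁻¹) {z | 1 ≤ ‖z‖} := by
      have hinv : ContinuousOn (fun z : ℂ => z⁻¹) {z | 1 ≤ ‖z‖} := by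
        apply ContinuousOn.inv₀ continuousOn_id
        intro z hz h0
        have h2 : (1 : ℝ) ≤ ‖z‖ := hz
        have h3 : z = 0 := h0
        rw [h3, norm_zero] at h2
        linarith
      apply ContinuousOn.mul (by fun_prop)
      apply hg.comp hinv
      intro z hz
      have h2 : (1 : ℝ) ≤ ‖z‖ := hz
      rw [mem_closedBall_zero_iff, norm_inv]
      exact inv_le_one_of_one_le₀ h2
    apply h1.congr
    intro z hz
    apply h z
    rintro rfl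
    have h2 : (1 : ℝ) ≤ ‖(0 : ℂ)‖ := hz
    rw [norm_zero] at h2
    linarith
  have hcl : IsClosed {z : ℂ | 1 ≤ ‖z‖} := isClosed_le continuous_const continuous_norm
  have h2 := hf.union_of_isClosed hB Metric.isClosed_closedBall hcl
  rw [← continuousOn_univ]
  apply h2.mono
  intro z _
  rcases le_total ‖z‖ 1 with h3 | h3
  · exact Or.inl (by rw [mem_closedBall_zero_iff]; exact h3)
  · exact Or.inr h3

/-- integrability of the density on the plane and the representation -/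
theorem EIB_rep (hD : EKD_stmt) (hX : EIX_stmt) (β : Bool → ℂ → ℂ) (C : ℝ)
    (hβ : ∀ j, EIB_H (β j) C) (j : Bool) (R : ℝ) (hR : 1 < R) :
    IntegrableOn (exB β j) (Metric.ball 0 R) ∧ ∃ h : ℂ → ℂ, DifferentiableOn ℂ h (Metric.ball 0 R) ∧
    ∀ z ∈ Metric.ball (0 : ℂ) R, TB β j z = TC (exB β j) (Metric.ball 0 R) z + h z := by
  have hR0 : 0 < R := by linarith
  have h1R : 1 / R < 1 := by rw [div_lt_one hR0]; exact hR
  have h1R0 : 0 < 1 / R := by positivity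
  set An : Set ℂ := {ξ : ℂ | 1 < ‖ξ‖ ∧ ‖ξ‖ < R} with hAn
  set An' : Set ℂ := {η : ℂ | 1 / R < ‖η‖ ∧ ‖η‖ < 1} with hAn'
  have hAnm : MeasurableSet An :=
    ((isOpen_lt continuous_const continuous_norm).inter
      (isOpen_lt continuous_norm continuous_const)).measurableSet
  have hAnm' : MeasurableSet An' :=
    ((isOpen_lt continuous_const continuous_norm).inter
      (isOpen_lt continuous_norm continuous_const)).measurableSet
  have hDm : MeasurableSet Dk := Metric.isClosed_closedBall.measurableSet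
  have hball : Metric.ball (0 : ℂ) R = Dk ∪ An := by
    ext ξ
    rw [mem_ball_zero_iff, mem_union, mem_closedBall_zero_iff]
    show ‖ξ‖ < R ↔ ‖ξ‖ ≤ 1 ∨ (1 < ‖ξ‖ ∧ ‖ξ‖ < R)
    constructor
    · intro h
      rcases le_or_gt ‖ξ‖ 1 with h1 | h1
      · exact Or.inl h1
      · exact Or.inr ⟨h1, h⟩
    · rintro (h | h)
      · linarith
      · exact h.2
  have hdisj : Disjoint Dk An := by
    rw [Set.disjoint_left]
    intro ξ h1 h2
    rw [mem_closedBall_zero_iff] at h1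
    have h3 : 1 < ‖ξ‖ := h2.1
    linarith
  have hjac : ∀ ξ : ℂ, ((‖ξ‖⁻¹ ^ 4 : ℝ) : ℂ) = ξ⁻¹ ^ 2 * (conj ξ)⁻¹ ^ 2 := by
    intro ξ
    have h1 : ((‖ξ‖ : ℝ) : ℂ) ^ 2 = ξ * conj ξ := by
      rw [Complex.mul_conj, Complex.normSq_eq_norm_sq]
      push_cast
      rfl
    push_cast
    rw [inv_pow, show ((‖ξ‖ : ℝ) : ℂ) ^ 4 = (((‖ξ‖ : ℝ) : ℂ) ^ 2) ^ 2 by ring, h1, mul_pow, mul_inv,
      inv_pow, inv_pow]
  have hexD : ∀ ξ ∈ Dk, exB β j ξ = β j ξ := by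
    intro ξ hξ
    rw [mem_closedBall_zero_iff] at hξ
    unfold exB
    rw [if_pos hξ]
  have hexA : ∀ ξ ∈ An, exB β j ξ = -ξ ^ 2 * (conj ξ)⁻¹ ^ 2 * β (!j) ξ⁻¹ := by
    intro ξ hξ
    have h1 : 1 < ‖ξ‖ := hξ.1
    unfold exB
    rw [if_neg (not_le.2 h1)]
  have hne : ∀ ξ ∈ An, ξ ≠ 0 := by
    rintro ξ hξ rfl
    have h1 : 1 < ‖(0 : ℂ)‖ := hξ.1
    rw [norm_zero] at h1
    linarith
  have hsub' : An' ⊆ Dk := by
    intro η hη
    rw [mem_closedBall_zero_iff]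
    exact hη.2.le
  have hinvb : ∀ (n : ℕ), ∀ η ∈ An', ‖η⁻¹ ^ n‖ ≤ R ^ n := by
    intro n η hη
    have h1 : 1 / R < ‖η‖ := hη.1
    rw [norm_pow, norm_inv]
    apply pow_le_pow_left₀ (by positivity)
    rw [inv_le_comm₀ (by linarith) hR0, ← one_div]
    exact h1.le
  -- integrability
  have hiD : IntegrableOn (exB β j) Dk :=
    ((EIB_A hD (β j) C (hβ j)).1).congr_fun (fun ξ hξ => (hexD ξ hξ).symm) hDm
  have hiA : IntegrableOn (exB β j) An := by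
    have h1 : IntegrableOn (fun η => (-(η⁻¹ ^ 4)) * β (!j) η) An' :=
      EIB_bdd hAnm' (((EIB_A hD (β (!j)) C (hβ (!j))).1).mono_set hsub') _ (by fun_prop) (R ^ 4)
        (fun η hη => by rw [norm_neg]; exact hinvb 4 η hη)
    have h2 := (hX ℂ _ R hR).1.1 h1
    refine h2.congr_fun (fun ξ hξ => ?_) hAnm
    have h3 := hne ξ hξ
    show (‖ξ‖⁻¹ ^ 4 : ℝ) • ((-(ξ⁻¹⁻¹ ^ 4)) * β (!j) ξ⁻¹) = exB β j ξ
    rw [hexA ξ hξ, Complex.real_smul, hjac ξ, inv_inv]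
    field_simp
  have hi : IntegrableOn (exB β j) (Metric.ball 0 R) := by
    rw [hball]
    exact hiD.union hiA
  -- the coefficients of the polynomial part
  have hpow : ∀ n : ℕ, IntegrableOn (fun ξ => ξ⁻¹ ^ n * exB β j ξ) An := by
    intro n
    apply EIB_bdd hAnm hiA _ (by fun_prop) 1
    intro ξ hξ
    have h1 : 1 < ‖ξ‖ := hξ.1
    rw [norm_pow, norm_inv]
    exact pow_le_one₀ (by positivity) (inv_le_one_of_one_le₀ h1.le)
  have hH : DifferentiableOn ℂ (fun z => ∫ ξ in Metric.closedBall (0 : ℂ) (1 / R), β (!j) ξ / (1 - z * ξ))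
      (Metric.ball 0 R) :=
    EIG_hol _ R hR (((EIB_A hD (β (!j)) C (hβ (!j))).1).mono_set
      (Metric.closedBall_subset_closedBall h1R.le))
  refine ⟨hi, fun z => (1 / (Real.pi : ℂ)) * ((z ^ 2 * ∫ ξ in An, ξ⁻¹ ^ 3 * exB β j ξ) +
    (z * ∫ ξ in An, ξ⁻¹ ^ 2 * exB β j ξ) + (∫ ξ in An, ξ⁻¹ ^ 1 * exB β j ξ) +
    z ^ 3 * ∫ ξ in Metric.closedBall (0 : ℂ) (1 / R), β (!j) ξ / (1 - z * ξ)), ?_, ?_⟩
  · apply DifferentiableOn.const_mul
    apply DifferentiableOn.add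
    · apply Differentiable.differentiableOn
      fun_prop
    · exact (by fun_prop : Differentiable ℂ fun z : ℂ => z ^ 3).differentiableOn.mul hH
  · intro z hz
    have i1 := (EIB_A hD (β j) C (hβ j)).2 z
    have i2 := EIB_B hD (β (!j)) C (hβ (!j)) z
    have k1 : IntegrableOn (fun ξ => exB β j ξ / (z - ξ)) Dk :=
      i1.congr_fun (fun ξ hξ => by rw [hexD ξ hξ]) hDm
    have k1' : ∫ ξ in Dk, exB β j ξ / (z - ξ) = ∫ ξ in Dk, β j ξ / (z - ξ) :=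
      setIntegral_congr_fun hDm (fun ξ hξ => by simp only [hexD ξ hξ])
    have hden : ∀ ξ ∈ An, 1 - z * ξ⁻¹ = -(ξ⁻¹ * (z - ξ)) := by
      intro ξ hξ
      have : ξ⁻¹ * ξ = 1 := inv_mul_cancel₀ (hne ξ hξ)
      linear_combination -this
    -- integrability of the Cauchy kernel on the annulus
    have k2 : IntegrableOn (fun ξ => exB β j ξ / (z - ξ)) An := by
      have h1 : IntegrableOn (fun η => η⁻¹ ^ 3 * (β (!j) η / (1 - z * η))) An' :=
        EIB_bdd hAnm' (i2.mono_set hsub') _ (by fun_prop) (R ^ 3) (fun η hη => hinvb 3 η hη)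
      refine ((hX ℂ _ R hR).1.1 h1).congr_fun (fun ξ hξ => ?_) hAnm
      have h3 := hne ξ hξ
      show (‖ξ‖⁻¹ ^ 4 : ℝ) • (ξ⁻¹⁻¹ ^ 3 * (β (!j) ξ⁻¹ / (1 - z * ξ⁻¹))) = exB β j ξ / (z - ξ)
      rw [hexA ξ hξ, Complex.real_smul, hjac ξ, inv_inv, hden ξ hξ, div_neg, div_eq_mul_inv,
        div_eq_mul_inv, mul_inv, inv_inv]
      have h5 : ξ⁻¹ ^ 2 * ξ ^ 2 = 1 := by rw [← mul_pow, inv_mul_cancel₀ h3, one_pow]
      linear_combination (-ξ ^ 2 * (conj ξ)⁻¹ ^ 2 * β (!j) ξ⁻¹ * (z - ξ)⁻¹) * h5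
    have hx := (hX ℂ (fun η => z ^ 3 * (β (!j) η / (1 - z * η))) R hR).2
    have hcongr : ∫ ξ in An, (‖ξ‖⁻¹ ^ 4 : ℝ) • (z ^ 3 * (β (!j) ξ⁻¹ / (1 - z * ξ⁻¹))) =
        ∫ ξ in An, (exB β j ξ / (z - ξ) + (z ^ 2 * (ξ⁻¹ ^ 3 * exB β j ξ) + z * (ξ⁻¹ ^ 2 * exB β j ξ) +
          ξ⁻¹ ^ 1 * exB β j ξ)) := by
      apply integral_congr_ae
      have h0 : ∀ᵐ ξ ∂(volume.restrict An), ξ ≠ z := by
        apply ae_restrict_of_ae
        rw [ae_iff]
        simp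
      filter_upwards [h0, ae_restrict_mem hAnm] with ξ h1 hξ
      have h2 : z - ξ ≠ 0 := sub_ne_zero.2 h1.symm
      have h3 := hne ξ hξ
      rw [hexA ξ hξ, Complex.real_smul, hjac ξ, hden ξ hξ]
      have h4 : conj ξ ≠ 0 := by
        rw [Ne, map_eq_zero]
        exact h3
      field_simp
      ring
    have hP : ∫ ξ in An, (exB β j ξ / (z - ξ) + (z ^ 2 * (ξ⁻¹ ^ 3 * exB β j ξ) +
        z * (ξ⁻¹ ^ 2 * exB β j ξ) + ξ⁻¹ ^ 1 * exB β j ξ)) = (∫ ξ in An, exB β j ξ / (z - ξ)) +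
        ((z ^ 2 * ∫ ξ in An, ξ⁻¹ ^ 3 * exB β j ξ) + (z * ∫ ξ in An, ξ⁻¹ ^ 2 * exB β j ξ) +
          ∫ ξ in An, ξ⁻¹ ^ 1 * exB β j ξ) := by
      have m3 : IntegrableOn (fun ξ => z ^ 2 * (ξ⁻¹ ^ 3 * exB β j ξ)) An := (hpow 3).const_mul _
      have m2 : IntegrableOn (fun ξ => z * (ξ⁻¹ ^ 2 * exB β j ξ)) An := (hpow 2).const_mul _
      have m32 : IntegrableOn (fun ξ => z ^ 2 * (ξ⁻¹ ^ 3 * exB β j ξ) + z * (ξ⁻¹ ^ 2 * exB β j ξ)) An :=
        m3.add m2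
      have m321 : IntegrableOn (fun ξ => z ^ 2 * (ξ⁻¹ ^ 3 * exB β j ξ) + z * (ξ⁻¹ ^ 2 * exB β j ξ) +
        ξ⁻¹ ^ 1 * exB β j ξ) An := m32.add (hpow 1)
      rw [integral_add k2 m321, integral_add m32 (hpow 1), integral_add m3 m2, integral_const_mul,
        integral_const_mul]
    have hAn'z : z ^ 3 * ∫ η in An', β (!j) η / (1 - z * η) = (∫ ξ in An, exB β j ξ / (z - ξ)) +
        ((z ^ 2 * ∫ ξ in An, ξ⁻¹ ^ 3 * exB β j ξ) + (z * ∫ ξ in An, ξ⁻¹ ^ 2 * exB β j ξ) +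
          ∫ ξ in An, ξ⁻¹ ^ 1 * exB β j ξ) := by
      rw [← hP, ← hcongr, ← hx, integral_const_mul]
    have hTC : ∫ ξ in Metric.ball (0 : ℂ) R, exB β j ξ / (z - ξ) =
        (∫ ξ in Dk, β j ξ / (z - ξ)) + ∫ ξ in An, exB β j ξ / (z - ξ) := by
      rw [hball, setIntegral_union hdisj hAnm k1 k2, k1']
    -- the disc is the small disc and the annulus
    have hsplit : ∫ ξ in Dk, β (!j) ξ / (1 - z * ξ) =
        (∫ ξ in Metric.closedBall (0 : ℂ) (1 / R), β (!j) ξ / (1 - z * ξ)) +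
          ∫ η in An', β (!j) η / (1 - z * η) := by
      have hsm : Metric.closedBall (0 : ℂ) (1 / R) ⊆ Dk := Metric.closedBall_subset_closedBall h1R.le
      have hd2 : Disjoint (Metric.closedBall (0 : ℂ) (1 / R)) An' := by
        rw [Set.disjoint_left]
        intro ξ h1 h2
        rw [mem_closedBall_zero_iff] at h1
        have h3 : 1 / R < ‖ξ‖ := h2.1
        linarith
      rw [← setIntegral_union hd2 hAnm' (i2.mono_set hsm) (i2.mono_set hsub')]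
      have hun : Metric.closedBall (0 : ℂ) (1 / R) ∪ An' = Metric.ball (0 : ℂ) 1 := by
        ext ξ
        rw [mem_ball_zero_iff, mem_union, mem_closedBall_zero_iff]
        show (‖ξ‖ ≤ 1 / R ∨ (1 / R < ‖ξ‖ ∧ ‖ξ‖ < 1)) ↔ ‖ξ‖ < 1
        constructor
        · rintro (h | h)
          · linarith
          · exact h.2
        · intro h
          rcases le_or_gt ‖ξ‖ (1 / R) with h1 | h1
          · exact Or.inl h1
          · exact Or.inr ⟨h1, h⟩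
      rw [hun]
      apply setIntegral_congr_set
      have hae : (Metric.closedBall (0 : ℂ) 1 : Set ℂ) =ᵐ[volume] Metric.ball (0 : ℂ) 1 := by
        rw [← Metric.ball_union_sphere]
        have h0 : (Metric.sphere (0 : ℂ) 1 : Set ℂ) =ᵐ[volume] (∅ : Set ℂ) := by
          rw [ae_eq_empty]
          exact Measure.addHaar_sphere _ _ _
        have h1 := (ae_eq_refl (Metric.ball (0 : ℂ) 1) : (Metric.ball (0 : ℂ) 1 : Set ℂ) =ᵐ[volume] _).union h0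
        rwa [Set.union_empty] at h1
      exact hae
    unfold TB TC
    rw [hTC, hsplit, mul_add (z ^ 3), hAn'z]
    ring

theorem EIB (hD : EKD_stmt) (hE : EKE_stmt) (hX : EIX_stmt) : EIB_stmt := by
  intro β C₀ P hm hb
  set C := |C₀| with hCdef
  have hC : 0 ≤ C := abs_nonneg _
  have hH : ∀ j, EIB_H (β j) C := by
    intro j
    refine ⟨hm j, ?_⟩
    filter_upwards [EIG_ae0 Dk, ae_restrict_mem Metric.isClosed_closedBall.measurableSet] with z hz8 hz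
    refine (hb j z hz hz8).trans ?_
    exact mul_le_mul_of_nonneg_right (le_abs_self _) (inv_nonneg.2 (EIG_mt z))
  have hPq : ∀ j, Differentiable ℂ (Pq P j) := by
    intro j
    unfold Pq
    cases j
    · simp only [cond_false]
      fun_prop
    · simp only [cond_true]
      fun_prop
  have hglue : ∀ j z, z ≠ 0 → TB β j z + Pq P j z = z ^ 2 * (TB β (!j) z⁻¹ + Pq P (!j) z⁻¹) := by
    intro j z hz
    rw [mul_add, ← EIB_gluePq P j z hz, ← EIB_glueTB β j z hz]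
  have hdisc : ∀ j, ContinuousOn (fun z => TB β j z + Pq P j z) Dk := by
    intro j
    have h := EIB_C hE (β j) (β (!j)) C hC (hH j) (hH (!j))
    exact (continuousOn_const.mul h).add (hPq j).continuous.continuousOn
  refine ⟨fun j => EIB_cont _ _ (hdisc j) (hdisc (!j)) (hglue j), hglue, fun j R hR => ?_⟩
  obtain ⟨h1, h, h2, h3⟩ := EIB_rep hD hX β C hH j R hR
  refine ⟨h1, fun z => h z + Pq P j z, h2.add (hPq j).differentiableOn, fun z hz => ?_⟩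
  rw [h3 z hz]
  ring

end

end Pool.Agent.DL
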