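import Pool.Agent.helper22.DL.SpecE1

/-!
# Project dl (MP_4caea3_gt), module EIG: the operator TG on the sphere
-/

namespace Pool.Agent.DL

open Matrix Complex MeasureTheory Set Filter Topology
open scoped ComplexOrder Manifold ContDiff ComplexConjugate

noncomputable section

theorem EIG_null : volume {z : ℂ | z ^ 8 = 1} = 0 := by
  have h : {z : ℂ | z ^ 8 = 1}.Finite := by
    refine Set.Finite.subset (Finset.finite_toSet (Polynomial.nthRoots 8 (1 : ℂ)).toFinset) ?_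
    intro y hy
    rw [Finset.mem_coe, Multiset.mem_toFinset, Polynomial.mem_nthRoots (by norm_num)]
    exact hy
  exact h.measure_zero _

theorem EIG_ae0 (S : Set ℂ) : ∀ᵐ ξ ∂(volume.restrict S), ξ ^ 8 ≠ 1 := by
  apply ae_restrict_of_ae
  rw [ae_iff]
  simpa using EIG_null

theorem EIG_ae (φ : ℂ → ℂ) (C : ℝ) (h : ∀ z ∈ Dk, z ^ 8 ≠ 1 → ‖φ z‖ ≤ C * Wt 1 z) :
    ∀ᵐ ξ ∂(volume.restrict Dk), ‖φ ξ‖ ≤ C * Wt 1 ξ := by
  filter_upwards [EIG_ae0 Dk, ae_restrict_mem Metric.isClosed_closedBall.measurableSet] with ξ h1 h2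
  exact h ξ h2 h1

theorem EIG_W (ξ : ℂ) : 0 ≤ Wt 1 ξ := by unfold Wt; positivity

theorem EIG_mt (z : ℂ) : 0 ≤ mt z := by unfold mt; positivity

theorem EIG_mtpos (z : ℂ) (h : z ^ 8 ≠ 1) : 0 < mt z := by
  unfold mt
  have : 0 < ‖1 - z ^ 8‖ := norm_pos_iff.2 (sub_ne_zero.2 (Ne.symm h))
  positivity

theorem EIG_mtc : Continuous mt := by
  unfold mt
  exact Continuous.rpow_const (by fun_prop) (fun _ => Or.inr (by norm_num))

theorem EIG_mti (z : ℂ) (hz : z ≠ 0) : mt z⁻¹ = ‖z‖⁻¹ ^ 2 * mt z := by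
  unfold mt
  have h1 : 1 - z⁻¹ ^ 8 = -(z⁻¹ ^ 8) * (1 - z ^ 8) := by
    have : z⁻¹ ^ 8 * z ^ 8 = 1 := by rw [← mul_pow, inv_mul_cancel₀ hz, one_pow]
    linear_combination -this
  rw [h1, norm_mul, norm_neg, norm_pow, norm_inv, Real.mul_rpow (by positivity) (norm_nonneg _)]
  congr 1
  rw [← Real.rpow_natCast, ← Real.rpow_mul (by positivity), ← Real.rpow_natCast]
  norm_num

theorem EIG_inv8 (z : ℂ) (h : z ^ 8 ≠ 1) : z⁻¹ ^ 8 ≠ 1 := by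
  intro h'
  apply h
  rw [inv_pow] at h'
  exact inv_eq_one.1 h'

/-- the hypotheses on a density -/
structure EIG_H (φ : ℂ → ℂ) (C : ℝ) : Prop where
  m : AEStronglyMeasurable φ (volume.restrict Dk)
  b : ∀ᵐ ξ ∂(volume.restrict Dk), ‖φ ξ‖ ≤ C * Wt 1 ξ

theorem EIG_H3 {φ : ℂ → ℂ} {C : ℝ} (h : EIG_H φ C) : EIG_H (fun ξ => ξ ^ 3 * φ ξ) C := by
  refine ⟨(by fun_prop : Continuous fun ξ : ℂ => ξ ^ 3).aestronglyMeasurable.mul h.m, ?_⟩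
  filter_upwards [h.b, ae_restrict_mem Metric.isClosed_closedBall.measurableSet] with ξ h1 h2
  rw [mem_closedBall_zero_iff] at h2
  rw [norm_mul, norm_pow]
  exact (mul_le_of_le_one_left (norm_nonneg _) (pow_le_one₀ (norm_nonneg _) h2)).trans h1

theorem EIG_A (hD : EKD_stmt) (R : ℝ) (hR : 1 < R) : ∃ M : ℝ, 0 < M ∧ ∀ (φ : ℂ → ℂ) (C : ℝ), 0 ≤ C →
    EIG_H φ C → IntegrableOn φ Dk ∧
    ∀ z ∈ Metric.ball (0 : ℂ) R, z ^ 8 ≠ 1 → IntegrableOn (fun ξ => φ ξ / (z - ξ)) Dk ∧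
      ‖∫ ξ in Dk, φ ξ / (z - ξ)‖ ≤ C * M * (mt z)⁻¹ := by
  obtain ⟨M, hM, h1, -, ⟨h2, -⟩, -⟩ := hD R (by linarith)
  have hsub : Dk ⊆ Metric.ball (0 : ℂ) R := Metric.closedBall_subset_ball hR
  refine ⟨M, hM, fun φ C hC hφ => ⟨?_, fun z hz hz8 => ?_⟩⟩
  · have h3 : IntegrableOn (fun ξ : ℂ => C * Wt 1 ξ) Dk := (h2.mono_set hsub).const_mul C
    exact Integrable.mono' h3 hφ.m hφ.b
  · obtain ⟨h3, h4, -⟩ := h1 z hz hz8
    have h5 : IntegrableOn (fun ξ : ℂ => C * (Wt 1 ξ * ‖z - ξ‖⁻¹)) Dk :=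
      (h3.mono_set hsub).const_mul C
    have hm2 : AEStronglyMeasurable (fun ξ => φ ξ / (z - ξ)) (volume.restrict Dk) := by
      simp only [div_eq_mul_inv]
      apply hφ.m.mul
      apply Measurable.aestronglyMeasurable
      fun_prop
    have h6 : ∀ᵐ ξ ∂(volume.restrict Dk), ‖φ ξ / (z - ξ)‖ ≤ C * (Wt 1 ξ * ‖z - ξ‖⁻¹) := by
      filter_upwards [hφ.b] with ξ h7
      rw [norm_div, div_eq_mul_inv, ← mul_assoc]
      exact mul_le_mul_of_nonneg_right h7 (by positivity)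
    refine ⟨Integrable.mono' h5 hm2 h6, ?_⟩
    calc ‖∫ ξ in Dk, φ ξ / (z - ξ)‖ ≤ ∫ ξ in Dk, C * (Wt 1 ξ * ‖z - ξ‖⁻¹) :=
          norm_integral_le_of_norm_le h5 h6
      _ = C * ∫ ξ in Dk, Wt 1 ξ * ‖z - ξ‖⁻¹ := integral_const_mul _ _
      _ ≤ C * ∫ ξ in Metric.ball (0 : ℂ) R, Wt 1 ξ * ‖z - ξ‖⁻¹ := by
          apply mul_le_mul_of_nonneg_left _ hC
          apply setIntegral_mono_set h3 _ hsub.eventuallyLE
          exact Eventually.of_forall fun ξ => mul_nonneg (EIG_W ξ) (by positivity)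
      _ ≤ C * (M * (mt z)⁻¹) := mul_le_mul_of_nonneg_left h4 hC
      _ = C * M * (mt z)⁻¹ := by ring

theorem EIG_B (hD : EKD_stmt) (R : ℝ) (hR : 1 < R) : ∃ M : ℝ, 0 < M ∧ ∀ (φ : ℂ → ℂ) (C : ℝ), 0 ≤ C →
    EIG_H φ C → ∀ z ∈ Metric.ball (0 : ℂ) R, z ^ 8 ≠ 1 → IntegrableOn (fun ξ => φ ξ / (1 - z * ξ)) Dk ∧
      ‖∫ ξ in Dk, φ ξ / (1 - z * ξ)‖ ≤ C * M * (mt z)⁻¹ := by
  obtain ⟨M₃, hM₃, h3⟩ := EIG_A hD 3 (by norm_num)
  obtain ⟨M₀, -, -, -, ⟨hW, -⟩, -⟩ := hD 3 (by norm_num)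
  have hWD : IntegrableOn (fun ξ : ℂ => Wt 1 ξ) Dk :=
    hW.mono_set (Metric.closedBall_subset_ball (by norm_num))
  set I₀ : ℝ := ∫ ξ in Dk, Wt 1 ξ with hI₀
  have hI₀0 : 0 ≤ I₀ := setIntegral_nonneg Metric.isClosed_closedBall.measurableSet fun ξ _ => EIG_W ξ
  refine ⟨4 * I₀ + M₃ * R, by positivity, fun φ C hC hφ z hz hz8 => ?_⟩
  rw [mem_ball_zero_iff] at hz
  have hmt := EIG_mtpos z hz8
  rcases le_or_gt ‖z‖ (1 / 2) with hz2 | hz2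
  · have hb : ∀ᵐ ξ ∂(volume.restrict Dk), ‖φ ξ / (1 - z * ξ)‖ ≤ (2 * C) * Wt 1 ξ := by
      filter_upwards [hφ.b, ae_restrict_mem Metric.isClosed_closedBall.measurableSet] with ξ h1 h2
      rw [mem_closedBall_zero_iff] at h2
      have h4 : 1 / 2 ≤ ‖1 - z * ξ‖ := by
        have h5 : ‖z * ξ‖ ≤ 1 / 2 := by
          rw [norm_mul]
          calc ‖z‖ * ‖ξ‖ ≤ (1 / 2) * 1 := by gcongr
            _ = 1 / 2 := by norm_num
        have h6 := norm_sub_norm_le (1 : ℂ) (z * ξ)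
        rw [norm_one] at h6
        linarith
      rw [norm_div, div_le_iff₀ (by linarith)]
      have h7 : 0 ≤ C * Wt 1 ξ := mul_nonneg hC (EIG_W ξ)
      calc ‖φ ξ‖ ≤ C * Wt 1 ξ := h1
        _ = (2 * C * Wt 1 ξ) * (1 / 2) := by ring
        _ ≤ (2 * C * Wt 1 ξ) * ‖1 - z * ξ‖ := mul_le_mul_of_nonneg_left h4 (by linarith)
    have hi : IntegrableOn (fun ξ : ℂ => (2 * C) * Wt 1 ξ) Dk := hWD.const_mul _
    have hm : AEStronglyMeasurable (fun ξ => φ ξ / (1 - z * ξ)) (volume.restrict Dk) := by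
      simp only [div_eq_mul_inv]
      apply hφ.m.mul
      apply Measurable.aestronglyMeasurable
      fun_prop
    refine ⟨Integrable.mono' hi hm hb, ?_⟩
    have hmt2 : mt z ≤ 2 := by
      unfold mt
      have h8 : ‖1 - z ^ 8‖ ≤ 2 := by
        have h9 := norm_sub_le (1 : ℂ) (z ^ 8)
        rw [norm_one, norm_pow] at h9
        have h10 : ‖z‖ ^ 8 ≤ 1 := pow_le_one₀ (norm_nonneg _) (by linarith)
        linarith
      calc ‖1 - z ^ 8‖ ^ (1 / 4 : ℝ) ≤ (2 : ℝ) ^ (1 / 4 : ℝ) :=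
            Real.rpow_le_rpow (norm_nonneg _) h8 (by norm_num)
        _ ≤ (2 : ℝ) ^ (1 : ℝ) := Real.rpow_le_rpow_of_exponent_le (by norm_num) (by norm_num)
        _ = 2 := Real.rpow_one _
    have hinv : 1 ≤ 2 * (mt z)⁻¹ := by
      rw [← div_eq_mul_inv, le_div_iff₀ hmt, one_mul]; exact hmt2
    calc ‖∫ ξ in Dk, φ ξ / (1 - z * ξ)‖ ≤ ∫ ξ in Dk, (2 * C) * Wt 1 ξ :=
          norm_integral_le_of_norm_le hi hb
      _ = (2 * C) * I₀ := integral_const_mul _ _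
      _ = (2 * C) * I₀ * 1 := (mul_one _).symm
      _ ≤ (2 * C) * I₀ * (2 * (mt z)⁻¹) := by gcongr
      _ = C * (4 * I₀) * (mt z)⁻¹ := by ring
      _ ≤ C * (4 * I₀ + M₃ * R) * (mt z)⁻¹ := by
          have : 0 ≤ M₃ * R := by positivity
          gcongr
          linarith
  · have hz0 : z ≠ 0 := by
      rintro rfl
      rw [norm_zero] at hz2
      linarith
    have hzn : 0 < ‖z‖ := norm_pos_iff.2 hz0
    have hinv : z⁻¹ ∈ Metric.ball (0 : ℂ) 3 := by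
      rw [mem_ball_zero_iff, norm_inv, inv_lt_comm₀ hzn (by norm_num)]
      linarith
    obtain ⟨h4, h5⟩ := (h3 φ C hC hφ).2 z⁻¹ hinv (EIG_inv8 z hz8)
    have heq : (fun ξ => φ ξ / (1 - z * ξ)) = fun ξ => z⁻¹ * (φ ξ / (z⁻¹ - ξ)) := by
      funext ξ
      have h6 : 1 - z * ξ = z * (z⁻¹ - ξ) := by
        rw [mul_sub, mul_inv_cancel₀ hz0]
      rw [h6, div_eq_mul_inv, div_eq_mul_inv, mul_inv]
      ring
    rw [heq]
    refine ⟨h4.const_mul _, ?_⟩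
    rw [integral_const_mul, norm_mul, norm_inv]
    have h6 : (mt z⁻¹)⁻¹ = ‖z‖ ^ 2 * (mt z)⁻¹ := by
      rw [EIG_mti z hz0, mul_inv, inv_pow, inv_inv]
    rw [h6] at h5
    calc ‖z‖⁻¹ * ‖∫ ξ in Dk, φ ξ / (z⁻¹ - ξ)‖ ≤ ‖z‖⁻¹ * (C * M₃ * (‖z‖ ^ 2 * (mt z)⁻¹)) := by gcongr
      _ = C * (M₃ * ‖z‖) * (mt z)⁻¹ := by field_simp
      _ ≤ C * (4 * I₀ + M₃ * R) * (mt z)⁻¹ := by
          have : M₃ * ‖z‖ ≤ M₃ * R := by gcongr
          gcongr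
          linarith

/-- continuity of integrals against kernels -/
theorem EIG_K (K : ℂ → ℂ → ℂ) (hK : GK K) (q : ℂ → ℂ) (C : ℝ) (hC : 0 ≤ C)
    (hq : AEStronglyMeasurable q (volume.restrict Dk)) (hqb : ∀ᵐ ξ ∂(volume.restrict Dk), ‖q ξ‖ ≤ C) :
    ContinuousOn (fun z => ∫ ξ in Dk, K z ξ * q ξ) Dk := by
  intro z₀ hz₀
  have hint : ∀ z ∈ Dk, IntegrableOn (fun ξ => K z ξ * q ξ) Dk := by
    intro z hz
    refine Integrable.mono' ((hK.1 z hz).norm.const_mul C) ((hK.1 z hz).aestronglyMeasurable.mul hq) ?_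
    filter_upwards [hqb] with ξ h1
    rw [norm_mul, mul_comm]
    exact mul_le_mul_of_nonneg_right h1 (norm_nonneg _)
  have h1 := (hK.2 z₀ hz₀).const_mul C
  rw [mul_zero] at h1
  show Tendsto _ _ _
  rw [tendsto_iff_norm_sub_tendsto_zero]
  refine squeeze_zero' (Eventually.of_forall fun z => norm_nonneg _) ?_ h1
  filter_upwards [self_mem_nhdsWithin] with z hz
  have h2 : (∫ ξ in Dk, K z ξ * q ξ) - ∫ ξ in Dk, K z₀ ξ * q ξ =
      ∫ ξ in Dk, (K z ξ - K z₀ ξ) * q ξ := by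
    rw [← integral_sub (hint z hz) (hint z₀ hz₀)]
    congr 1
    funext ξ
    ring
  rw [h2, ← integral_const_mul]
  apply norm_integral_le_of_norm_le
  · exact (((hK.1 z hz).sub (hK.1 z₀ hz₀)).norm).const_mul C
  · filter_upwards [hqb] with ξ h3
    rw [norm_mul, mul_comm]
    exact mul_le_mul_of_nonneg_right h3 (norm_nonneg _)

/-- continuity on the disc -/
theorem EIG_C (hF : EKF_stmt) (φ ψ : ℂ → ℂ) (C : ℝ) (hC : 0 ≤ C) (hφ : EIG_H φ C) (hψ : EIG_H ψ C) :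
    ContinuousOn (fun z => (∫ ξ in Dk, φ ξ / (z - ξ)) - ∫ ξ in Dk, ξ ^ 3 * ψ ξ / (1 - z * ξ)) (Ns ∩ Dk) := by
  have hq : ∀ χ : ℂ → ℂ, EIG_H χ C →
      AEStronglyMeasurable (fun ξ => χ ξ * ((‖1 - ξ ^ 8‖ : ℝ) : ℂ)) (volume.restrict Dk) ∧
      ∀ᵐ ξ ∂(volume.restrict Dk), ‖χ ξ * ((‖1 - ξ ^ 8‖ : ℝ) : ℂ)‖ ≤ C := by
    intro χ hχ
    constructor
    · apply hχ.m.mul
      apply Continuous.aestronglyMeasurable
      fun_prop
    · filter_upwards [hχ.b, EIG_ae0 Dk] with ξ h1 h2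
      have h3 : 0 < ‖1 - ξ ^ 8‖ := norm_pos_iff.2 (sub_ne_zero.2 (Ne.symm h2))
      rw [norm_mul, Complex.norm_real, norm_norm]
      calc ‖χ ξ‖ * ‖1 - ξ ^ 8‖ ≤ (C * Wt 1 ξ) * ‖1 - ξ ^ 8‖ := by gcongr
        _ = C := by unfold Wt; field_simp
  have hW : ∀ ξ : ℂ, ξ ^ 8 ≠ 1 → ((Wt 1 ξ : ℝ) : ℂ) * ((‖1 - ξ ^ 8‖ : ℝ) : ℂ) = 1 := by
    intro ξ h2
    have h3 : 0 < ‖1 - ξ ^ 8‖ := norm_pos_iff.2 (sub_ne_zero.2 (Ne.symm h2))
    rw [← Complex.ofReal_mul]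
    unfold Wt
    rw [div_mul_cancel₀ _ h3.ne', Complex.ofReal_one]
  have c1 := EIG_K _ hF.1 _ C hC (hq φ hφ).1 (hq φ hφ).2
  have c2 := EIG_K _ hF.2 _ C hC (hq ψ hψ).1 (hq ψ hψ).2
  have hmt : ContinuousOn (fun z : ℂ => ((mt z : ℝ) : ℂ)⁻¹) (Ns ∩ Dk) := by
    apply ContinuousOn.inv₀
    · exact (Complex.continuous_ofReal.comp EIG_mtc).continuousOn
    · intro z hz
      exact Complex.ofReal_ne_zero.2 (EIG_mtpos z hz.1).ne'
  have h1 := (hmt.mul (c1.mono inter_subset_right)).sub (hmt.mul (c2.mono inter_subset_right))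
  refine h1.congr ?_
  intro z hz
  have hm0 : ((mt z : ℝ) : ℂ) ≠ 0 := Complex.ofReal_ne_zero.2 (EIG_mtpos z hz.1).ne'
  have e1 : ∫ ξ in Dk, (((mt z : ℝ) : ℂ) * ((Wt 1 ξ : ℂ) / (z - ξ))) * (φ ξ * ((‖1 - ξ ^ 8‖ : ℝ) : ℂ)) =
      ((mt z : ℝ) : ℂ) * ∫ ξ in Dk, φ ξ / (z - ξ) := by
    rw [← integral_const_mul]
    apply integral_congr_ae
    filter_upwards [EIG_ae0 Dk] with ξ h2
    have h3 := hW ξ h2
    calc (((mt z : ℝ) : ℂ) * ((Wt 1 ξ : ℂ) / (z - ξ))) * (φ ξ * ((‖1 - ξ ^ 8‖ : ℝ) : ℂ)) =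
        ((mt z : ℝ) : ℂ) * (φ ξ / (z - ξ)) * (((Wt 1 ξ : ℝ) : ℂ) * ((‖1 - ξ ^ 8‖ : ℝ) : ℂ)) := by ring
      _ = _ := by rw [h3, mul_one]
  have e2 : ∫ ξ in Dk, (((mt z : ℝ) : ℂ) * ((Wt 1 ξ : ℂ) * (ξ ^ 3 / (1 - z * ξ)))) *
      (ψ ξ * ((‖1 - ξ ^ 8‖ : ℝ) : ℂ)) =
      ((mt z : ℝ) : ℂ) * ∫ ξ in Dk, ξ ^ 3 * ψ ξ / (1 - z * ξ) := by
    rw [← integral_const_mul]
    apply integral_congr_ae
    filter_upwards [EIG_ae0 Dk] with ξ h2
    have h3 := hW ξ h2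
    calc (((mt z : ℝ) : ℂ) * ((Wt 1 ξ : ℂ) * (ξ ^ 3 / (1 - z * ξ)))) * (ψ ξ * ((‖1 - ξ ^ 8‖ : ℝ) : ℂ)) =
        ((mt z : ℝ) : ℂ) * (ξ ^ 3 * ψ ξ / (1 - z * ξ)) *
          (((Wt 1 ξ : ℝ) : ℂ) * ((‖1 - ξ ^ 8‖ : ℝ) : ℂ)) := by ring
      _ = _ := by rw [h3, mul_one]
  simp only [Pi.sub_apply, Pi.mul_apply]
  rw [e1, e2, inv_mul_cancel_left₀ hm0, inv_mul_cancel_left₀ hm0]

/-- gluing -/
theorem EIG_glue (hD : EKD_stmt) (φ ψ : ℂ → ℂ) (C : ℝ) (hC : 0 ≤ C) (hφ : EIG_H φ C) (hψ : EIG_H ψ C)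
    (m0 : (∫ ξ in Dk, φ ξ) + ∫ ξ in Dk, ψ ξ * ξ ^ 2 = 0)
    (m1 : (∫ ξ in Dk, φ ξ * ξ) + ∫ ξ in Dk, ψ ξ * ξ = 0)
    (m2 : (∫ ξ in Dk, φ ξ * ξ ^ 2) + ∫ ξ in Dk, ψ ξ = 0) (z : ℂ) (hz : z ≠ 0) (hz8 : z ^ 8 ≠ 1) :
    (∫ ξ in Dk, φ ξ / (z - ξ)) - ∫ ξ in Dk, ξ ^ 3 * ψ ξ / (1 - z * ξ) =
      -z⁻¹ ^ 4 * ((∫ ξ in Dk, ψ ξ / (z⁻¹ - ξ)) - ∫ ξ in Dk, ξ ^ 3 * φ ξ / (1 - z⁻¹ * ξ)) := by
  set R : ℝ := 2 + ‖z‖ + ‖z⁻¹‖ with hR
  have hR1 : 1 < R := by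
    have h1 := norm_nonneg z
    have h2 := norm_nonneg z⁻¹
    linarith
  have hzR : z ∈ Metric.ball (0 : ℂ) R := by
    rw [mem_ball_zero_iff]
    have h2 := norm_nonneg z⁻¹
    linarith
  have hziR : z⁻¹ ∈ Metric.ball (0 : ℂ) R := by
    rw [mem_ball_zero_iff]
    have h2 := norm_nonneg z
    linarith
  obtain ⟨M, -, hA⟩ := EIG_A hD R hR1
  obtain ⟨M', -, hB⟩ := EIG_B hD R hR1
  have hφ3 := EIG_H3 hφ
  have hψ3 := EIG_H3 hψ
  have i1 := ((hA φ C hC hφ).2 z hzR hz8).1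
  have i2 := (hB _ C hC hψ3 z hzR hz8).1
  have i3 := (hB ψ C hC hψ z hzR hz8).1
  have i4 := ((hA _ C hC hφ3).2 z hzR hz8).1
  have j0 := (hA φ C hC hφ).1
  have j0' := (hA ψ C hC hψ).1
  have hmul : ∀ (χ : ℂ → ℂ), IntegrableOn χ Dk → ∀ n : ℕ, IntegrableOn (fun ξ => χ ξ * ξ ^ n) Dk := by
    intro χ hχ n
    refine Integrable.mono' hχ.norm
      (hχ.aestronglyMeasurable.mul (by fun_prop : Continuous fun ξ : ℂ => ξ ^ n).aestronglyMeasurable) ?_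
    filter_upwards [ae_restrict_mem Metric.isClosed_closedBall.measurableSet] with ξ h2
    rw [mem_closedBall_zero_iff] at h2
    rw [norm_mul, norm_pow]
    exact mul_le_of_le_one_right (norm_nonneg _) (pow_le_one₀ (norm_nonneg _) h2)
  have j1 := hmul φ j0 1
  have j2 := hmul φ j0 2
  have j1' := hmul ψ j0' 1
  have j2' := hmul ψ j0' 2
  simp only [pow_one] at j1 j1'
  -- the two integrals at the inverse point
  have e1 : ∫ ξ in Dk, ψ ξ / (z⁻¹ - ξ) = z * ∫ ξ in Dk, ψ ξ / (1 - z * ξ) := by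
    rw [← integral_const_mul]
    congr 1
    funext ξ
    have h6 : 1 - z * ξ = z * (z⁻¹ - ξ) := by rw [mul_sub, mul_inv_cancel₀ hz]
    rw [h6, div_eq_mul_inv, div_eq_mul_inv, mul_inv]
    field_simp
  have e2 : ∫ ξ in Dk, ξ ^ 3 * φ ξ / (1 - z⁻¹ * ξ) = z * ∫ ξ in Dk, ξ ^ 3 * φ ξ / (z - ξ) := by
    rw [← integral_const_mul]
    congr 1
    funext ξ
    have h6 : 1 - z⁻¹ * ξ = z⁻¹ * (z - ξ) := by rw [mul_sub, inv_mul_cancel₀ hz]
    rw [h6, div_eq_mul_inv, div_eq_mul_inv, mul_inv, inv_inv]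
    ring
  -- polynomial parts
  have e3 : ∫ ξ in Dk, (z ^ 3 * (φ ξ / (z - ξ)) - ξ ^ 3 * φ ξ / (z - ξ)) =
      ∫ ξ in Dk, (z ^ 2 * φ ξ + z * (φ ξ * ξ) + φ ξ * ξ ^ 2) := by
    apply integral_congr_ae
    apply ae_restrict_of_ae
    have h0 : ∀ᵐ ξ : ℂ, ξ ≠ z := by
      rw [ae_iff]
      simp
    filter_upwards [h0] with ξ h1
    have h2 : z - ξ ≠ 0 := sub_ne_zero.2 h1.symm
    field_simp
    ring
  have e4 : ∫ ξ in Dk, (ψ ξ / (1 - z * ξ) - z ^ 3 * (ξ ^ 3 * ψ ξ / (1 - z * ξ))) =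
      ∫ ξ in Dk, (ψ ξ + z * (ψ ξ * ξ) + z ^ 2 * (ψ ξ * ξ ^ 2)) := by
    apply integral_congr_ae
    apply ae_restrict_of_ae
    have h0 : ∀ᵐ ξ : ℂ, ξ ≠ z⁻¹ := by
      rw [ae_iff]
      simp
    filter_upwards [h0] with ξ h1
    have h2 : 1 - z * ξ ≠ 0 := by
      intro h
      apply h1
      have h3 : z * ξ = 1 := by linear_combination -h
      exact eq_inv_of_mul_eq_one_right h3
    field_simp
    ring
  have e3r : ∫ ξ in Dk, (z ^ 2 * φ ξ + z * (φ ξ * ξ) + φ ξ * ξ ^ 2) =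
      z ^ 2 * (∫ ξ in Dk, φ ξ) + z * (∫ ξ in Dk, φ ξ * ξ) + ∫ ξ in Dk, φ ξ * ξ ^ 2 := by
    have k1 : IntegrableOn (fun ξ => z ^ 2 * φ ξ + z * (φ ξ * ξ)) Dk :=
      (j0.const_mul _).add (j1.const_mul _)
    have k2 : IntegrableOn (fun ξ => z ^ 2 * φ ξ) Dk := j0.const_mul _
    have k3 : IntegrableOn (fun ξ => z * (φ ξ * ξ)) Dk := j1.const_mul _
    calc _ = (∫ ξ in Dk, (z ^ 2 * φ ξ + z * (φ ξ * ξ))) + ∫ ξ in Dk, φ ξ * ξ ^ 2 := integral_add k1 j2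
      _ = ((∫ ξ in Dk, z ^ 2 * φ ξ) + ∫ ξ in Dk, z * (φ ξ * ξ)) + ∫ ξ in Dk, φ ξ * ξ ^ 2 := by
          rw [integral_add k2 k3]
      _ = _ := by rw [integral_const_mul, integral_const_mul]
  have e4r : ∫ ξ in Dk, (ψ ξ + z * (ψ ξ * ξ) + z ^ 2 * (ψ ξ * ξ ^ 2)) =
      (∫ ξ in Dk, ψ ξ) + z * (∫ ξ in Dk, ψ ξ * ξ) + z ^ 2 * ∫ ξ in Dk, ψ ξ * ξ ^ 2 := by
    have k1 : IntegrableOn (fun ξ => ψ ξ + z * (ψ ξ * ξ)) Dk := j0'.add (j1'.const_mul _)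
    have k2 : IntegrableOn (fun ξ => z * (ψ ξ * ξ)) Dk := j1'.const_mul _
    have k3 : IntegrableOn (fun ξ => z ^ 2 * (ψ ξ * ξ ^ 2)) Dk := j2'.const_mul _
    calc _ = (∫ ξ in Dk, (ψ ξ + z * (ψ ξ * ξ))) + ∫ ξ in Dk, z ^ 2 * (ψ ξ * ξ ^ 2) :=
          integral_add k1 k3
      _ = ((∫ ξ in Dk, ψ ξ) + ∫ ξ in Dk, z * (ψ ξ * ξ)) + ∫ ξ in Dk, z ^ 2 * (ψ ξ * ξ ^ 2) := by
          rw [integral_add j0' k2]
      _ = _ := by rw [integral_const_mul, integral_const_mul]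
  have l1 : IntegrableOn (fun ξ => z ^ 3 * (φ ξ / (z - ξ))) Dk := i1.const_mul _
  have l2 : IntegrableOn (fun ξ => z ^ 3 * (ξ ^ 3 * ψ ξ / (1 - z * ξ))) Dk := i2.const_mul _
  rw [e3r, integral_sub l1 i4, integral_const_mul] at e3
  rw [e4r, integral_sub i3 l2, integral_const_mul] at e4
  rw [e1, e2]
  set a := ∫ ξ in Dk, φ ξ / (z - ξ)
  set b := ∫ ξ in Dk, ξ ^ 3 * ψ ξ / (1 - z * ξ)
  set a' := ∫ ξ in Dk, ψ ξ / (1 - z * ξ)
  set b' := ∫ ξ in Dk, ξ ^ 3 * φ ξ / (z - ξ)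
  have hkey : z ^ 3 * (a - b) = -(a' - b') := by
    linear_combination e3 + e4 + z ^ 2 * m0 + z * m1 + m2
  have hz3 : z ^ 3 ≠ 0 := pow_ne_zero _ hz
  apply mul_left_cancel₀ hz3
  rw [hkey]
  field_simp

/-- continuity on the plane without the roots -/
theorem EIG_cont (f g : ℂ → ℂ) (hf : ContinuousOn f (Ns ∩ Dk)) (hg : ContinuousOn g (Ns ∩ Dk))
    (h : ∀ z, z ≠ 0 → z ^ 8 ≠ 1 → f z = -z⁻¹ ^ 4 * g z⁻¹) : ContinuousOn f Ns := by
  have hB : ContinuousOn f (Ns ∩ {z | 1 ≤ ‖z‖}) := by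
    have h1 : ContinuousOn (fun z : ℂ => -z⁻¹ ^ 4 * g z⁻¹) (Ns ∩ {z | 1 ≤ ‖z‖}) := by
      have hinv : ContinuousOn (fun z : ℂ => z⁻¹) (Ns ∩ {z | 1 ≤ ‖z‖}) := by
        apply ContinuousOn.inv₀ continuousOn_id
        intro z hz h0
        have h2 : (1 : ℝ) ≤ ‖z‖ := hz.2
        have h3 : z = 0 := h0
        rw [h3, norm_zero] at h2
        linarith
      apply ContinuousOn.mul ((hinv.pow 4).neg)
      apply hg.comp hinv
      intro z hz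
      have h2 : (1 : ℝ) ≤ ‖z‖ := hz.2
      refine ⟨EIG_inv8 z hz.1, ?_⟩
      rw [mem_closedBall_zero_iff, norm_inv]
      exact inv_le_one_of_one_le₀ h2
    apply h1.congr
    intro z hz
    apply h z _ hz.1
    rintro rfl
    have h2 : (1 : ℝ) ≤ ‖(0 : ℂ)‖ := hz.2
    rw [norm_zero] at h2
    linarith
  intro z hz
  rcases lt_trichotomy ‖z‖ 1 with h1 | h1 | h1
  · apply (hf z ⟨hz, by rw [mem_closedBall_zero_iff]; exact h1.le⟩).mono_of_mem_nhdsWithin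
    have h2 : {w : ℂ | ‖w‖ < 1} ∈ 𝓝 z := (isOpen_lt continuous_norm continuous_const).mem_nhds h1
    filter_upwards [self_mem_nhdsWithin, mem_nhdsWithin_of_mem_nhds h2] with w h3 h4
    exact ⟨h3, by rw [mem_closedBall_zero_iff]; exact (show ‖w‖ < 1 from h4).le⟩
  · have h2 := (hf z ⟨hz, by rw [mem_closedBall_zero_iff]; exact h1.le⟩).union
      (hB z ⟨hz, h1.ge⟩)
    apply h2.mono
    intro w hw
    rcases le_total ‖w‖ 1 with h3 | h3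
    · exact Or.inl ⟨hw, by rw [mem_closedBall_zero_iff]; exact h3⟩
    · exact Or.inr ⟨hw, h3⟩
  · apply (hB z ⟨hz, h1.le⟩).mono_of_mem_nhdsWithin
    have h2 : {w : ℂ | 1 < ‖w‖} ∈ 𝓝 z := (isOpen_lt continuous_const continuous_norm).mem_nhds h1
    filter_upwards [self_mem_nhdsWithin, mem_nhdsWithin_of_mem_nhds h2] with w h3 h4
    exact ⟨h3, (show 1 < ‖w‖ from h4).le⟩

/-- the holomorphic part -/
theorem EIG_hol (χ : ℂ → ℂ) (R : ℝ) (hR : 1 < R) (hχ : IntegrableOn χ (Metric.closedBall 0 (1 / R))) :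
    DifferentiableOn ℂ (fun z => ∫ ξ in Metric.closedBall (0 : ℂ) (1 / R), χ ξ / (1 - z * ξ))
      (Metric.ball 0 R) := by
  intro z₀ hz₀
  apply DifferentiableAt.differentiableWithinAt
  rw [mem_ball_zero_iff] at hz₀
  have hR0 : 0 < R := by linarith
  set ρ : ℝ := (‖z₀‖ + R) / 2 with hρ
  have hρR : ρ < R := by rw [hρ]; linarith
  have hρ0 : ‖z₀‖ < ρ := by rw [hρ]; linarith
  have hρp : 0 < ρ := lt_of_le_of_lt (norm_nonneg _) hρ0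
  set c : ℝ := 1 - ρ / R with hc
  have hc0 : 0 < c := by
    rw [hc, sub_pos, div_lt_one hR0]; exact hρR
  have hmeas : ∀ z : ℂ, AEStronglyMeasurable (fun ξ => χ ξ / (1 - z * ξ))
      (volume.restrict (Metric.closedBall (0 : ℂ) (1 / R))) := by
    intro z
    simp only [div_eq_mul_inv]
    apply hχ.aestronglyMeasurable.mul
    apply Measurable.aestronglyMeasurable
    fun_prop
  have hden : ∀ ξ ∈ Metric.closedBall (0 : ℂ) (1 / R), ∀ z ∈ Metric.ball (0 : ℂ) ρ, c ≤ ‖1 - z * ξ‖ := by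
    intro ξ hξ z hz
    rw [mem_closedBall_zero_iff] at hξ
    rw [mem_ball_zero_iff] at hz
    have h5 : ‖z * ξ‖ ≤ ρ / R := by
      rw [norm_mul]
      calc ‖z‖ * ‖ξ‖ ≤ ρ * (1 / R) := by gcongr
        _ = ρ / R := by ring
    have h6 := norm_sub_norm_le (1 : ℂ) (z * ξ)
    rw [norm_one] at h6
    linarith
  have hmem := ae_restrict_mem (μ := volume)
    (Metric.isClosed_closedBall (x := (0 : ℂ)) (ε := 1 / R)).measurableSet
  have hz₀m : z₀ ∈ Metric.ball (0 : ℂ) ρ := by rw [mem_ball_zero_iff]; exact hρ0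
  have key := hasDerivAt_integral_of_dominated_loc_of_deriv_le
    (μ := volume.restrict (Metric.closedBall (0 : ℂ) (1 / R))) (s := Metric.ball (0 : ℂ) ρ)
    (F := fun z ξ => χ ξ / (1 - z * ξ)) (F' := fun z ξ => χ ξ * ξ / (1 - z * ξ) ^ 2) (x₀ := z₀)
    (bound := fun ξ => (1 / c ^ 2) * ‖χ ξ‖)
    (Metric.isOpen_ball.mem_nhds hz₀m) (Eventually.of_forall hmeas) ?_ ?_ ?_ ?_ ?_
  · exact key.2.differentiableAt
  · refine Integrable.mono' (hχ.norm.const_mul (1 / c)) (hmeas z₀) ?_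
    filter_upwards [hmem] with ξ hξ
    rw [norm_div, div_le_iff₀ (lt_of_lt_of_le hc0 (hden ξ hξ z₀ hz₀m))]
    calc ‖χ ξ‖ = 1 / c * ‖χ ξ‖ * c := by field_simp
      _ ≤ 1 / c * ‖χ ξ‖ * ‖1 - z₀ * ξ‖ :=
        mul_le_mul_of_nonneg_left (hden ξ hξ z₀ hz₀m) (by positivity)
  · simp only [div_eq_mul_inv]
    apply (hχ.aestronglyMeasurable.mul continuous_id.aestronglyMeasurable).mul
    apply Measurable.aestronglyMeasurable
    fun_prop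
  · filter_upwards [hmem] with ξ hξ z hz
    have h1 := hden ξ hξ z hz
    have h2 : 0 < ‖1 - z * ξ‖ := lt_of_lt_of_le hc0 h1
    rw [mem_closedBall_zero_iff] at hξ
    have h3 : ‖ξ‖ ≤ 1 := hξ.trans (by rw [div_le_one hR0]; exact hR.le)
    rw [norm_div, norm_mul, norm_pow, div_le_iff₀ (by positivity)]
    calc ‖χ ξ‖ * ‖ξ‖ ≤ ‖χ ξ‖ * 1 := by gcongr
      _ = 1 / c ^ 2 * ‖χ ξ‖ * c ^ 2 := by field_simp
      _ ≤ 1 / c ^ 2 * ‖χ ξ‖ * ‖1 - z * ξ‖ ^ 2 := by gcongr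
  · exact hχ.norm.const_mul _
  · filter_upwards [hmem] with ξ hξ z hz
    have h1 := hden ξ hξ z hz
    have h2 : 1 - z * ξ ≠ 0 := norm_pos_iff.1 (lt_of_lt_of_le hc0 h1)
    have h3 : HasDerivAt (fun z : ℂ => 1 - z * ξ) (-ξ) z := by
      have := ((hasDerivAt_id z).mul_const ξ).const_sub 1
      simpa using this
    have h4 := (h3.inv h2).const_mul (χ ξ)
    exact h4.congr_deriv (by ring)

/-- integrability of the density on the plane and the representation -/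
theorem EIG_rep (hD : EKD_stmt) (hX : EIX_stmt) (φ : Bool → ℂ → ℂ) (C : ℝ) (hC : 0 ≤ C)
    (hφ : ∀ j, EIG_H (φ j) C) (j : Bool) (R : ℝ) (hR : 1 < R) :
    IntegrableOn (exG φ j) (Metric.ball 0 R) ∧ ∃ h : ℂ → ℂ, DifferentiableOn ℂ h (Metric.ball 0 R) ∧
    ∀ z ∈ Metric.ball (0 : ℂ) R, z ^ 8 ≠ 1 → TG φ j z = TC (exG φ j) (Metric.ball 0 R) z + h z := by
  have hR0 : 0 < R := by linarith
  have h1R : 1 / R < 1 := by rw [div_lt_one hR0]; exact hR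
  have h1R0 : 0 < 1 / R := by positivity
  obtain ⟨M, -, hA⟩ := EIG_A hD R hR
  obtain ⟨M', -, hB⟩ := EIG_B hD R hR
  set An : Set ℂ := {ξ : ℂ | 1 < ‖ξ‖ ∧ ‖ξ‖ < R} with hAn
  set An' : Set ℂ := {η : ℂ | 1 / R < ‖η‖ ∧ ‖η‖ < 1} with hAn'
  have hAnm : MeasurableSet An :=
    ((isOpen_lt continuous_const continuous_norm).inter
      (isOpen_lt continuous_norm continuous_const)).measurableSet
  have hAnm' : MeasurableSet An' :=
    ((isOpen_lt continuous_const continuous_norm).inter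
      (isOpen_lt continuous_norm continuous_const)).measurableSet
  have hDm : MeasurableSet Dk := Metric.isClosed_closedBall.measurableSet
  have hball : Metric.ball (0 : ℂ) R = Dk ∪ An := by
    ext ξ
    rw [mem_ball_zero_iff, mem_union, mem_closedBall_zero_iff]
    show ‖ξ‖ < R ↔ ‖ξ‖ ≤ 1 ∨ (1 < ‖ξ‖ ∧ ‖ξ‖ < R)
    constructor
    · intro h
      rcases le_or_gt ‖ξ‖ 1 with h1 | h1
      · exact Or.inl h1
      · exact Or.inr ⟨h1, h⟩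
    · rintro (h | h)
      · linarith
      · exact h.2
  have hdisj : Disjoint Dk An := by
    rw [Set.disjoint_left]
    intro ξ h1 h2
    rw [mem_closedBall_zero_iff] at h1
    have h3 : 1 < ‖ξ‖ := h2.1
    linarith
  -- the Jacobian
  have hjac : ∀ ξ : ℂ, ((‖ξ‖⁻¹ ^ 4 : ℝ) : ℂ) = ξ⁻¹ ^ 2 * (conj ξ)⁻¹ ^ 2 := by
    intro ξ
    have h1 : ((‖ξ‖ : ℝ) : ℂ) ^ 2 = ξ * conj ξ := by
      rw [Complex.mul_conj, Complex.normSq_eq_norm_sq]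
      push_cast
      rfl
    push_cast
    rw [inv_pow, show ((‖ξ‖ : ℝ) : ℂ) ^ 4 = (((‖ξ‖ : ℝ) : ℂ) ^ 2) ^ 2 by ring, h1, mul_pow, mul_inv,
      inv_pow, inv_pow]
  have hexD : ∀ ξ ∈ Dk, exG φ j ξ = φ j ξ := by
    intro ξ hξ
    rw [mem_closedBall_zero_iff] at hξ
    unfold exG
    rw [if_pos hξ]
  have hexA : ∀ ξ ∈ An, exG φ j ξ = ξ⁻¹ ^ 4 * (conj ξ)⁻¹ ^ 2 * φ (!j) ξ⁻¹ := by
    intro ξ hξ
    have h1 : 1 < ‖ξ‖ := hξ.1
    unfold exG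
    rw [if_neg (not_le.2 h1)]
  have hne : ∀ ξ ∈ An, ξ ≠ 0 := by
    rintro ξ hξ rfl
    have h1 : 1 < ‖(0 : ℂ)‖ := hξ.1
    rw [norm_zero] at h1
    linarith
  have hsub' : An' ⊆ Dk := by
    intro η hη
    rw [mem_closedBall_zero_iff]
    exact hη.2.le
  -- integrability
  have hiD : IntegrableOn (exG φ j) Dk :=
    ((hA (φ j) C hC (hφ j)).1).congr_fun (fun ξ hξ => (hexD ξ hξ).symm) hDm
  have hiA : IntegrableOn (exG φ j) An := by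
    have h1 : IntegrableOn (fun η => η ^ 2 * φ (!j) η) An' := by
      have h2 : IntegrableOn (fun η => η ^ 2 * φ (!j) η) Dk := by
        have h3 := (hA (φ (!j)) C hC (hφ (!j))).1
        refine Integrable.mono' h3.norm
          ((by fun_prop : Continuous fun ξ : ℂ => ξ ^ 2).aestronglyMeasurable.mul
            h3.aestronglyMeasurable) ?_
        filter_upwards [ae_restrict_mem hDm] with ξ h2
        rw [mem_closedBall_zero_iff] at h2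
        rw [norm_mul, norm_pow]
        exact mul_le_of_le_one_left (norm_nonneg _) (pow_le_one₀ (norm_nonneg _) h2)
      exact h2.mono_set hsub'
    have h2 := (hX ℂ (fun η => η ^ 2 * φ (!j) η) R hR).1.1 h1
    refine h2.congr_fun (fun ξ hξ => ?_) hAnm
    have h3 := hne ξ hξ
    show (‖ξ‖⁻¹ ^ 4 : ℝ) • (ξ⁻¹ ^ 2 * φ (!j) ξ⁻¹) = exG φ j ξ
    rw [hexA ξ hξ, Complex.real_smul, hjac ξ]
    ring
  have hi : IntegrableOn (exG φ j) (Metric.ball 0 R) := by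
    rw [hball]
    exact hiD.union hiA
  refine ⟨hi, fun z => -(1 / (Real.pi : ℂ)) *
    ∫ ξ in Metric.closedBall (0 : ℂ) (1 / R), (ξ ^ 3 * φ (!j) ξ) / (1 - z * ξ), ?_, ?_⟩
  · apply DifferentiableOn.const_mul
    apply EIG_hol _ R hR
    exact ((hA _ C hC (EIG_H3 (hφ (!j)))).1).mono_set
      (Metric.closedBall_subset_closedBall h1R.le)
  · intro z hz hz8
    have i1 := ((hA (φ j) C hC (hφ j)).2 z hz hz8).1
    have i2 := (hB _ C hC (EIG_H3 (hφ (!j))) z hz hz8).1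
    have k1 : IntegrableOn (fun ξ => exG φ j ξ / (z - ξ)) Dk :=
      i1.congr_fun (fun ξ hξ => by rw [hexD ξ hξ]) hDm
    have k1' : ∫ ξ in Dk, exG φ j ξ / (z - ξ) = ∫ ξ in Dk, φ j ξ / (z - ξ) :=
      setIntegral_congr_fun hDm (fun ξ hξ => by simp only [hexD ξ hξ])
    have i3 : IntegrableOn (fun η => -(η ^ 3 * φ (!j) η / (1 - z * η))) An' := (i2.mono_set hsub').neg
    have hx := hX ℂ (fun η => -(η ^ 3 * φ (!j) η / (1 - z * η))) R hR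
    have hcongr : ∀ ξ ∈ An, (‖ξ‖⁻¹ ^ 4 : ℝ) • (-(ξ⁻¹ ^ 3 * φ (!j) ξ⁻¹ / (1 - z * ξ⁻¹))) =
        exG φ j ξ / (z - ξ) := by
      intro ξ hξ
      have h3 := hne ξ hξ
      rw [hexA ξ hξ, Complex.real_smul, hjac ξ]
      have h4 : 1 - z * ξ⁻¹ = -(ξ⁻¹ * (z - ξ)) := by
        have : ξ⁻¹ * ξ = 1 := inv_mul_cancel₀ h3
        linear_combination -this
      rw [h4, div_neg, neg_neg, div_eq_mul_inv, div_eq_mul_inv, mul_inv, inv_inv]
      have h5 : ξ⁻¹ ^ 3 * ξ = ξ⁻¹ ^ 2 := by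
        rw [pow_succ, mul_assoc, inv_mul_cancel₀ h3, mul_one]
      linear_combination (ξ⁻¹ ^ 2 * (conj ξ)⁻¹ ^ 2 * φ (!j) ξ⁻¹ * (z - ξ)⁻¹) * h5
    have k2 : IntegrableOn (fun ξ => exG φ j ξ / (z - ξ)) An :=
      (hx.1.1 i3).congr_fun (fun ξ hξ => hcongr ξ hξ) hAnm
    have k2' : ∫ ξ in An, exG φ j ξ / (z - ξ) = ∫ η in An', -(η ^ 3 * φ (!j) η / (1 - z * η)) := by
      rw [hx.2]
      exact setIntegral_congr_fun hAnm (fun ξ hξ => (hcongr ξ hξ).symm)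
    have hTC : ∫ ξ in Metric.ball (0 : ℂ) R, exG φ j ξ / (z - ξ) =
        (∫ ξ in Dk, φ j ξ / (z - ξ)) - ∫ η in An', η ^ 3 * φ (!j) η / (1 - z * η) := by
      rw [hball, setIntegral_union hdisj hAnm k1 k2, k1', k2', integral_neg]
      ring
    -- the disc is the small disc and the annulus
    have hsplit : ∫ ξ in Dk, ξ ^ 3 * φ (!j) ξ / (1 - z * ξ) =
        (∫ ξ in Metric.closedBall (0 : ℂ) (1 / R), ξ ^ 3 * φ (!j) ξ / (1 - z * ξ)) +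
          ∫ η in An', η ^ 3 * φ (!j) η / (1 - z * η) := by
      have hsm : Metric.closedBall (0 : ℂ) (1 / R) ⊆ Dk := Metric.closedBall_subset_closedBall h1R.le
      have hd2 : Disjoint (Metric.closedBall (0 : ℂ) (1 / R)) An' := by
        rw [Set.disjoint_left]
        intro ξ h1 h2
        rw [mem_closedBall_zero_iff] at h1
        have h3 : 1 / R < ‖ξ‖ := h2.1
        linarith
      rw [← setIntegral_union hd2 hAnm' (i2.mono_set hsm) (i2.mono_set hsub')]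
      have hun : Metric.closedBall (0 : ℂ) (1 / R) ∪ An' = Metric.ball (0 : ℂ) 1 := by
        ext ξ
        rw [mem_ball_zero_iff, mem_union, mem_closedBall_zero_iff]
        show (‖ξ‖ ≤ 1 / R ∨ (1 / R < ‖ξ‖ ∧ ‖ξ‖ < 1)) ↔ ‖ξ‖ < 1
        constructor
        · rintro (h | h)
          · linarith
          · exact h.2
        · intro h
          rcases le_or_gt ‖ξ‖ (1 / R) with h1 | h1
          · exact Or.inl h1
          · exact Or.inr ⟨h1, h⟩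
      rw [hun]
      apply setIntegral_congr_set
      have hae : (Metric.closedBall (0 : ℂ) 1 : Set ℂ) =ᵐ[volume] Metric.ball (0 : ℂ) 1 := by
        rw [← Metric.ball_union_sphere]
        have h0 : (Metric.sphere (0 : ℂ) 1 : Set ℂ) =ᵐ[volume] (∅ : Set ℂ) := by
          rw [ae_eq_empty]
          exact Measure.addHaar_sphere _ _ _
        have h1 := (ae_eq_refl (Metric.ball (0 : ℂ) 1) : (Metric.ball (0 : ℂ) 1 : Set ℂ) =ᵐ[volume] _).union h0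
        rwa [Set.union_empty] at h1
      exact hae
    unfold TG TC
    rw [hTC, hsplit]
    ring

theorem EIG (hD : EKD_stmt) (hF : EKF_stmt) (hX : EIX_stmt) : EIG_stmt := by
  intro φ C₀ hm hb hmom
  set C := |C₀| with hCdef
  have hC : 0 ≤ C := abs_nonneg _
  have hH : ∀ j, EIG_H (φ j) C := by
    intro j
    refine ⟨hm j, EIG_ae (φ j) C fun z hz hz8 => (hb j z hz hz8).trans ?_⟩
    exact mul_le_mul_of_nonneg_right (le_abs_self _) (EIG_W z)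
  have hglue : ∀ j z, z ≠ 0 → z ^ 8 ≠ 1 → TG φ j z = -z⁻¹ ^ 4 * TG φ (!j) z⁻¹ := by
    intro j z hz hz8
    have hmo : ∀ j, ((∫ ξ in Dk, φ j ξ) + ∫ ξ in Dk, φ (!j) ξ * ξ ^ 2 = 0) ∧
        ((∫ ξ in Dk, φ j ξ * ξ) + ∫ ξ in Dk, φ (!j) ξ * ξ = 0) ∧
        ((∫ ξ in Dk, φ j ξ * ξ ^ 2) + ∫ ξ in Dk, φ (!j) ξ = 0) := by
      have m0 := hmom 0
      have m1 := hmom 1
      have m2 := hmom 2
      simp only [Fin.val_zero, Fin.val_one, Fin.val_two, pow_zero, mul_one, pow_one, Nat.sub_zero,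
        Nat.sub_self, Nat.add_one_sub_one, Nat.reduceSub] at m0 m1 m2
      intro j
      cases j
      · exact ⟨m0, m1, m2⟩
      · refine ⟨?_, ?_, ?_⟩
        · rw [add_comm]; exact m2
        · rw [add_comm]; exact m1
        · rw [add_comm]; exact m0
    obtain ⟨m0, m1, m2⟩ := hmo j
    have h := EIG_glue hD (φ j) (φ (!j)) C hC (hH j) (hH (!j)) m0 m1 m2 z hz hz8
    unfold TG
    rw [Bool.not_not, h]
    ring
  have hdisc : ∀ j, ContinuousOn (TG φ j) (Ns ∩ Dk) := by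
    intro j
    have h := EIG_C hF (φ j) (φ (!j)) C hC (hH j) (hH (!j))
    exact continuousOn_const.mul h
  refine ⟨fun j => EIG_cont (TG φ j) (TG φ (!j)) (hdisc j) (hdisc (!j)) (hglue j), ?_, hglue,
    fun j R hR => EIG_rep hD hX φ C hC hH j R hR⟩
  intro R
  obtain ⟨M, hM, hA⟩ := EIG_A hD (max R 2) (lt_of_lt_of_le (by norm_num) (le_max_right _ _))
  obtain ⟨M', hM', hB⟩ := EIG_B hD (max R 2) (lt_of_lt_of_le (by norm_num) (le_max_right _ _))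
  refine ⟨1 / Real.pi * (C * M + C * M'), fun j z hz hz8 => ?_⟩
  have hz' : z ∈ Metric.ball (0 : ℂ) (max R 2) := Metric.ball_subset_ball (le_max_left _ _) hz
  have h1 := ((hA (φ j) C hC (hH j)).2 z hz' hz8).2
  have h2 := (hB _ C hC (EIG_H3 (hH (!j))) z hz' hz8).2
  unfold TG
  rw [norm_mul]
  have h3 : ‖(1 / (Real.pi : ℂ))‖ = 1 / Real.pi := by
    rw [norm_div, norm_one, Complex.norm_real, Real.norm_of_nonneg Real.pi_pos.le]
  rw [h3, mul_assoc]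
  apply mul_le_mul_of_nonneg_left _ (by positivity)
  refine (norm_sub_le _ _).trans ?_
  rw [add_mul]
  exact add_le_add h1 h2

end

end Pool.Agent.DL
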