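import Pool.Agent.helper22.DL.SpecE2

/-!
# Project dl (MP_4caea3_gt), module EMX: maxima of continuous functions on the sphere
-/

namespace Pool.Agent.DL

open Matrix Complex MeasureTheory Set Filter Topology
open scoped ComplexOrder Manifold ContDiff ComplexConjugate

noncomputable section

theorem EMX : EMX_stmt := by
  intro F hF hg
  have hmax : ∀ j, ∃ z ∈ Dk, ∀ w ∈ Dk, F j w ≤ F j z := by
    intro j
    obtain ⟨z, hz, h⟩ := (isCompact_closedBall (0 : ℂ) 1).exists_isMaxOn
      ⟨0, by simp⟩ (hF j).continuousOn
    exact ⟨z, hz, fun w hw => h hw⟩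
  choose m hm hmm using hmax
  obtain ⟨j, hj⟩ : ∃ j, ∀ i, F i (m i) ≤ F j (m j) := by
    rcases le_total (F false (m false)) (F true (m true)) with h | h
    · refine ⟨true, fun i => ?_⟩
      cases i
      · exact h
      · exact le_rfl
    · refine ⟨false, fun i => ?_⟩
      cases i
      · exact le_rfl
      · exact h
  have hall : ∀ i z, F i z ≤ F j (m j) := by
    intro i z
    rcases le_or_gt ‖z‖ 1 with h | h
    · exact (hmm i z (by rw [mem_closedBall_zero_iff]; exact h)).trans (hj i)
    · have hz : z ≠ 0 := by
        rintro rfl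
        rw [norm_zero] at h
        linarith
      rw [hg i z hz]
      refine (hmm (!i) z⁻¹ ?_).trans (hj (!i))
      rw [mem_closedBall_zero_iff, norm_inv]
      exact inv_le_one_of_one_le₀ h.le
  exact ⟨j, m j, hm j, hall j, hall (!j)⟩

end

end Pool.Agent.DL
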